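import Mathlib
import Pool.Agent.H1.ShDefs
import Pool.Agent.H1.ShC

open Pool.Agent.H1.Sh
open scoped ComplexOrder

theorem Pool.Agent.Results.MP_e3a8c8_an.Both.result :
    (∀ (X : Type) (k l : Matrix X X ℂ), k.PosSemidef → l.PosSemidef → (∀ x, l x x ≠ 0) →
      IsCP k l → HasCert k l) ∧
    ∃ k l : Matrix (Fin 3) (Fin 3) ℂ, k.PosSemidef ∧ l.PosSemidef ∧ IsCP k l ∧ ¬ HasCert k l :=
  ⟨fun _ _ _ hk hl h0 h => positive hk hl h0 h, k0, l0, k0_psd, l0_psd, is_cp, no_cert⟩
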